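import Pool.Agent.H26.Hom.Stmts

/-!
# Modules CONFU and CONFD: structured words one level up and one level down
-/

namespace Pool.Agent.H26.Hom

/-! ### facts about transitions -/

theorem cf_ok (t : Trans) : inOK t.bot t.src.kind = true ∧ outOK t.bot t.tgt.kind = true ∧
    bitOK t.bot t.src.bit t.tgt.kind t.tgt.bit = true := by
  obtain ⟨⟨s, x, s'⟩, h⟩ := t
  simp only [okT, Bool.and_eq_true] at h
  exact ⟨h.1.1, h.1.2, h.2⟩

theorem cf_top (t : Trans) : t.top = out t.bot t.src.kind t.tgt.kind := rfl

theorem cf_conf (r : ℕ) (B : ℤ → ℕ → Bool) (H : ℕ → ℤ → Flag) (i : ℕ) (q : ℤ) (s : ℕ)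
    (hs : s < r) : conf r B H i (q * r + s) =
      if s < i then .cons (H s q) (B q s) else if s = i then .comp (H i q) (B q i)
        else .plain (B q s) := by
  have hr : (0 : ℤ) < r := by exact_mod_cast (Nat.zero_le s).trans_lt hs
  have h1 : (q * r + s) % (r : ℤ) = s := by
    rw [add_comm, Int.add_mul_emod_self_right]
    exact Int.emod_eq_of_lt (by positivity) (by exact_mod_cast hs)
  have h2 : (q * r + s) / (r : ℤ) = q := by
    rw [add_comm, Int.add_mul_ediv_right _ _ hr.ne']
    rw [Int.ediv_eq_zero_of_lt (by positivity) (by exact_mod_cast hs)]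
    simp
  simp only [conf, h1, h2, Int.toNat_natCast]

theorem cf_pos (r : ℕ) (hr : 0 < r) (a : ℤ) : ∃ (q : ℤ) (s : ℕ), s < r ∧ a = q * r + s := by
  have hr' : (0 : ℤ) < r := by exact_mod_cast hr
  refine ⟨a / r, (a % r).toNat, ?_, ?_⟩
  · have := Int.emod_lt_of_pos a hr'
    have := Int.emod_nonneg a hr'.ne'
    omega
  · have := Int.emod_nonneg a hr'.ne'
    rw [Int.toNat_of_nonneg this]
    have := Int.mul_ediv_add_emod a r
    linarith [mul_comm (r : ℤ) (a / r)]

/-- the flag carried by a kind -/
def cfFlag : Kind → Flag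
  | .car h => h
  | _ => .E

/-- going up: after a computing letter followed by a plain one -/
theorem cf_car (t t' : Trans) (h : t.tgt = t'.src) {f : Flag} {b b' : Bool}
    (h1 : t.bot = .comp f b) (h2 : t'.bot = .plain b') : t.tgt.kind = .car (cfFlag t.tgt.kind) := by
  have h3 := (cf_ok t).2.1
  have h4 := (cf_ok t').1
  rw [h1] at h3
  rw [h2, ← h] at h4
  cases hk : t.tgt.kind <;> simp_all [inOK, outOK, cfFlag]

theorem CONFU : CONFU_stmt := by
  intro r B H i A Z t hir hbot hlink
  have hr : 0 < r := by omega
  have hr' : (0 : ℤ) < r := by exact_mod_cast hr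
  let H' : ℕ → ℤ → Flag := fun s q =>
    if s ≤ i then H s q else cfFlag (t (q * r + i)).tgt.kind
  have hH1 : ∀ s ≤ i, H' s = H s := by
    intro s hs
    funext q
    simp [H', hs]
  have hH2 : ∀ q, H' (i + 1) q = cfFlag (t (q * r + i)).tgt.kind := by
    intro q
    simp [H']
  refine ⟨H', hH1, ?_, ?_⟩
  · intro a ha ha'
    obtain ⟨q, s, hs, rfl⟩ := cf_pos r hr a
    have hb := hbot (q * r + s) (by omega) (by omega)
    rw [cf_conf r B H i q s hs] at hb
    rw [cf_conf r B H' (i + 1) q s hs]
    rcases lt_trichotomy s i with h | h | h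
    · rw [if_pos h] at hb
      rw [if_pos (by omega), cf_top, hb, hH1 s (by omega)]
      rfl
    · subst h
      rw [if_neg (by omega), if_pos rfl] at hb
      rw [if_pos (by omega), cf_top, hb, hH1 s le_rfl]
      have hb' := hbot (q * r + s + 1) (by omega) (by omega)
      have e : q * r + s + 1 = q * r + ((s + 1 : ℕ) : ℤ) := by push_cast; ring
      rw [e, cf_conf r B H s q (s + 1) (by omega), if_neg (by omega), if_neg (by omega), ← e] at hb'
      have hc := cf_car _ _ (hlink (q * r + s) (by omega) (by omega)) hb hb'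
      rw [hc]
      rfl
    · have hp : ∀ b, (t (q * r + s)).bot = .plain b → True := fun _ _ => trivial
      rw [if_neg (by omega), if_neg (by omega)] at hb
      have e : q * r + (s : ℤ) = q * r + ((s - 1 : ℕ) : ℤ) + 1 := by
        have : ((s - 1 : ℕ) : ℤ) = (s : ℤ) - 1 := by omega
        rw [this]; ring
      have hb' := hbot (q * r + ((s - 1 : ℕ) : ℤ)) (by omega) (by omega)
      have hl := hlink (q * r + ((s - 1 : ℕ) : ℤ)) (by omega) (by omega)
      rw [← e] at hl
      rw [cf_conf r B H i q (s - 1) (by omega)] at hb'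
      by_cases hs1 : s = i + 1
      · subst hs1
        rw [if_neg (by omega), if_pos rfl, cf_top, hb]
        rw [if_neg (by omega), if_pos (by omega)] at hb'
        have hc := cf_car _ _ hl hb' hb
        rw [← hl, hc, hH2 q]
        have : ((i + 1 - 1 : ℕ) : ℤ) = i := by simp
        rw [this]
        rfl
      · rw [if_neg (by omega), if_neg (by omega), cf_top, hb]
        rw [if_neg (by omega), if_neg (by omega)] at hb'
        have h3 := (cf_ok (t (q * r + ((s - 1 : ℕ) : ℤ)))).2.1
        have h4 := (cf_ok (t (q * r + s))).1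
        rw [hb', hl] at h3
        rw [hb] at h4
        cases hk : (t (q * r + s)).src.kind <;> simp_all [inOK, outOK, out]
  · refine ⟨fun q => (t (q * r + i)).src.bit, ?_⟩
    intro q hq hq'
    have hqr : (q + 2) * (r : ℤ) = q * r + r + r := by ring
    rw [hqr] at hq'
    -- bits
    have hbits : ∀ j : ℕ, 1 ≤ j → j ≤ r →
        (t (q * r + i + j)).src.bit = (t (q * r + i)).tgt.bit := by
      intro j hj
      induction j, hj using Nat.le_induction with
      | base =>
        intro _
        have := hlink (q * r + i) (by omega) (by omega)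
        push_cast
        rw [← this]
      | succ j hj ih =>
        intro hjr
        rw [← ih (by omega)]
        have hl := hlink (q * r + i + j) (by omega) (by omega)
        have e : q * r + i + ((j + 1 : ℕ) : ℤ) = q * r + i + j + 1 := by push_cast; ring
        rw [e, ← hl]
        have hb := hbot (q * r + i + j) (by omega) (by omega)
        have hok := (cf_ok (t (q * r + i + j))).2.2
        by_cases hij : i + j < r
        · have e2 : q * r + i + j = q * r + ((i + j : ℕ) : ℤ) := by push_cast; ring
          rw [e2, cf_conf r B H i q (i + j) hij, if_neg (by omega), if_neg (by omega), ← e2] at hb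
          rw [hb] at hok
          have h9 := beq_iff_eq.1 hok
          exact h9.symm
        · have e2 : q * r + i + j = (q + 1) * r + ((i + j - r : ℕ) : ℤ) := by
            have : ((i + j - r : ℕ) : ℤ) = (i : ℤ) + j - r := by omega
            rw [this]; ring
          rw [e2, cf_conf r B H i (q + 1) (i + j - r) (by omega), if_pos (by omega), ← e2] at hb
          rw [hb] at hok
          have h9 := beq_iff_eq.1 hok
          exact h9.symm
    have hb := hbot (q * r + i) (by omega) (by omega)
    rw [cf_conf r B H i q i (by omega), if_neg (by omega), if_pos rfl] at hb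
    have hb' := hbot (q * r + i + 1) (by omega) (by omega)
    have e : q * r + i + 1 = q * r + ((i + 1 : ℕ) : ℤ) := by push_cast; ring
    rw [e, cf_conf r B H i q (i + 1) (by omega), if_neg (by omega), if_neg (by omega), ← e] at hb'
    have hc := cf_car _ _ (hlink (q * r + i) (by omega) (by omega)) hb hb'
    have hok := (cf_ok (t (q * r + i))).2.2
    rw [hb, hc] at hok
    have hk := hbits r (by omega) le_rfl
    have e3 : (q + 1) * (r : ℤ) + i = q * r + i + r := by ring
    rw [hH2 q]
    show rule (H i q) (B q i) (t (q * r + i)).src.bit (t ((q + 1) * r + i)).src.bit _ = true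
    rw [e3, hk]
    exact hok

/-! ### going down -/

theorem cf_top_comp {t : Trans} {h : Flag} {b : Bool} (ht : t.top = .comp h b) :
    t.bot = .plain b ∧ t.src.kind = .car h := by
  rw [cf_top] at ht
  cases hx : t.bot <;> cases hk : t.src.kind <;> cases hk' : t.tgt.kind <;> simp_all [out]

theorem cf_top_plain {t : Trans} {b : Bool} (ht : t.top = .plain b) :
    t.bot = .plain b := by
  rw [cf_top] at ht
  cases hx : t.bot <;> cases hk : t.src.kind <;> cases hk' : t.tgt.kind <;> simp_all [out]

theorem cf_top_cons {t : Trans} {h : Flag} {b : Bool} (ht : t.top = .cons h b) :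
    t.bot = .cons h b ∨ (t.bot = .comp h b ∧ ∃ f, t.tgt.kind = .car f) := by
  rw [cf_top] at ht
  cases hx : t.bot <;> cases hk : t.src.kind <;> cases hk' : t.tgt.kind <;> simp_all [out]

theorem cf_before {t t' : Trans} (h : t.tgt = t'.src) {f : Flag} {b : Bool}
    (ht : t'.top = .comp f b) : ∃ f' b', t.bot = .comp f' b' ∧ t.top = .cons f' b' := by
  have h1 := (cf_top_comp ht).2
  rw [← h] at h1
  have h3 := (cf_ok t).2.1
  rw [cf_top]
  cases hx : t.bot <;> simp_all [outOK, out]

theorem cf_after {t t' : Trans} (h : t.tgt = t'.src) {f : Flag}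
    (ht : t.tgt.kind = .car f) : ∃ b', t'.top = .comp f b' := by
  have h3 := (cf_ok t').1
  rw [h] at ht
  rw [cf_top]
  cases hx : t'.bot <;> simp_all [inOK, out]

theorem CONFD : CONFD_stmt := by
  intro r B H i A Z t hir hAZ htop hlink
  have hr : 0 < r := by omega
  have hr' : (0 : ℤ) < r := by exact_mod_cast hr
  -- `i` is positive
  have hi : i ≠ 0 := by
    rintro rfl
    -- a position with residue `0` in `(A, A + r]`
    obtain ⟨q, s, hs, hA⟩ := cf_pos r hr A
    have hq : (q + 1) * (r : ℤ) = q * r + r := by ring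
    have h1 := htop ((q + 1) * r) (by omega) (by omega)
    have e1 : (q + 1) * (r : ℤ) = (q + 1) * r + ((0 : ℕ) : ℤ) := by simp
    rw [e1, cf_conf r B H 0 (q + 1) 0 hr, if_neg (by omega), if_pos rfl, ← e1] at h1
    have hl := hlink ((q + 1) * r - 1) (by omega) (by omega)
    rw [sub_add_cancel] at hl
    obtain ⟨f', b', -, h2⟩ := cf_before hl h1
    have h3 := htop ((q + 1) * r - 1) (by omega) (by omega)
    have e2 : (q + 1) * (r : ℤ) - 1 = q * r + ((r - 1 : ℕ) : ℤ) := by
      have : ((r - 1 : ℕ) : ℤ) = (r : ℤ) - 1 := by omega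
      rw [this]; ring
    rw [e2, cf_conf r B H 0 q (r - 1) (by omega), if_neg (by omega), if_neg (by omega), ← e2] at h3
    rw [h3] at h2
    cases h2
  obtain ⟨i', rfl⟩ := Nat.exists_eq_succ_of_ne_zero hi
  refine ⟨i', rfl, ?_⟩
  intro a ha ha'
  obtain ⟨q, s, hs, rfl⟩ := cf_pos r hr a
  have hb := htop (q * r + s) (by omega) (by omega)
  rw [cf_conf r B H _ q s hs] at hb
  rw [cf_conf r B H i' q s hs]
  have hl := hlink (q * r + s) (by omega) (by omega)
  have e : q * r + (s : ℤ) + 1 = q * r + ((s + 1 : ℕ) : ℤ) := by push_cast; ring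
  rcases lt_trichotomy s i' with h | h | h
  · rw [if_pos (by omega)] at hb
    rw [if_pos h]
    rcases cf_top_cons hb with h1 | ⟨h1, f, h2⟩
    · exact h1
    · exfalso
      obtain ⟨b', h3⟩ := cf_after hl h2
      have h4 := htop (q * r + s + 1) (by omega) (by omega)
      rw [e, cf_conf r B H _ q (s + 1) (by omega), if_pos (by omega), ← e] at h4
      rw [h4] at h3
      cases h3
  · subst h
    rw [if_pos (by omega)] at hb
    rw [if_neg (by omega), if_pos rfl]
    have h4 := htop (q * r + s + 1) (by omega) (by omega)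
    rw [e, cf_conf r B H _ q (s + 1) (by omega), if_neg (by omega), if_pos rfl, ← e] at h4
    obtain ⟨f', b', h5, h6⟩ := cf_before hl h4
    rw [hb] at h6
    rw [h5]
    injection h6 with h7 h8
    rw [h7, h8]
  · rw [if_neg (by omega), if_neg (by omega)]
    by_cases hs1 : s = i' + 1
    · subst hs1
      rw [if_neg (by omega), if_pos rfl] at hb
      exact (cf_top_comp hb).1
    · rw [if_neg (by omega), if_neg (by omega)] at hb
      exact cf_top_plain hb

end Pool.Agent.H26.Hom
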