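import Pool.Agent.H26.Hom.Stmts

/-!
# Module SEL: towers for the letters of a finite set
-/

namespace Pool.Agent.H26.Hom

theorem sel_wok (N T : ℕ) (w : List Letter) : ∀ a, a + w.length < N → Wok N T a w := by
  induction w with
  | nil => intro a _; trivial
  | cons x l ih =>
    intro a ha
    have h1 : upd T a x l ≤ a + 1 := by
      unfold upd
      split <;> (try split_ifs) <;> omega
    simp only [List.length_cons] at ha
    exact ⟨by omega, ih _ (by omega)⟩

theorem sel_nT (T : ℕ) : nT (T + 1) = (nT T + 1) ^ 2 - 1 := by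
  have h : 1 ≤ 2 ^ (2 ^ T) := Nat.one_le_two_pow
  unfold nT
  rw [Nat.sub_add_cancel h, ← pow_mul, pow_succ]

theorem sel_nT_pos (T : ℕ) : 0 < nT T := by
  unfold nT
  have h : 2 ^ 1 ≤ 2 ^ (2 ^ T) := Nat.pow_le_pow_right (by norm_num) Nat.one_le_two_pow
  omega

theorem sel_zero (w : List Letter) : ∀ a, Wok 1 0 a w → ∀ x ∈ w, isCompE x = false := by
  induction w with
  | nil => intro a _ x hx; cases hx
  | cons y l ih =>
    intro a h x hx
    rcases List.mem_cons.1 hx with rfl | hx
    · have h1 := h.1
      unfold upd at h1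
      cases x with
      | comp f b => cases f <;> simp_all [isCompE]
      | _ => rfl
    · exact ih _ h.2 x hx

theorem sel_list (hW : WORD_stmt) (T : ℕ) : ∀ w : List Letter, Wok (nT T) T 0 w →
    ∃ (ws : ℕ → List Letter) (ts : ℕ → List Trans), ws 0 = w ∧
      (∀ l < T, (∃ s, PathFrom s (ts l)) ∧ (ts l).map Trans.bot = ws l ∧
        (ts l).map Trans.top = ws (l + 1)) ∧ ∀ x ∈ ws T, isCompE x = false := by
  induction T with
  | zero =>
    intro w hw
    refine ⟨fun _ => w, fun _ => [], rfl, fun l hl => absurd hl (by omega), ?_⟩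
    exact sel_zero w 0 hw
  | succ T ih =>
    intro w hw
    rw [sel_nT] at hw
    obtain ⟨s, ts0, h1, h2, h3⟩ := hW (nT T) T w (sel_nT_pos T) hw
    obtain ⟨ws, ts, h4, h5, h6⟩ := ih _ h3
    refine ⟨fun l => match l with | 0 => w | l + 1 => ws l,
      fun l => match l with | 0 => ts0 | l + 1 => ts l, rfl, ?_, ?_⟩
    · intro l hl
      cases l with
      | zero => exact ⟨⟨s, h1⟩, h2, h4.symm⟩
      | succ l => exact h5 l (by omega)
    · exact h6

/-- a transition -/
def selT0 : Trans := ⟨(⟨.idle, false⟩, .dead, ⟨.idle, false⟩), by decide⟩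

theorem sel_path (ts : List Trans) : ∀ s, PathFrom s ts → ∀ j, j + 1 < ts.length →
    (ts.getD j selT0).tgt = (ts.getD (j + 1) selT0).src := by
  induction ts with
  | nil => intro s _ j hj; simp at hj
  | cons t ts ih =>
    intro s h j hj
    cases j with
    | zero =>
      cases ts with
      | nil => simp at hj
      | cons t' ts => exact h.2.1.symm
    | succ j =>
      have := ih _ h.2 j (by simpa using hj)
      simpa using this

theorem SEL (hW : WORD_stmt) : SEL_stmt := by
  classical
  intro T S W₀ hS
  obtain ⟨L, hL⟩ : ∃ L : ℤ, ∀ x ∈ S, L ≤ x := by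
    obtain ⟨L, hL⟩ := S.bddBelow
    exact ⟨L, fun x hx => hL hx⟩
  obtain ⟨R, hR⟩ : ∃ R : ℤ, ∀ x ∈ S, x ≤ R := by
    obtain ⟨L, hL⟩ := S.bddAbove
    exact ⟨L, fun x hx => hL hx⟩
  have hm : ∀ k : ℤ, ∃ m : ℕ, k - 3 * ((m : ℤ) + 1) ∉ S := by
    intro k
    refine ⟨(k - L).toNat, fun h => ?_⟩
    have := hL _ h
    omega
  have hn : ∀ k : ℤ, ∃ n : ℕ, k + 3 * (n : ℤ) ∉ S := by
    intro k
    refine ⟨(R - k).toNat + 1, fun h => ?_⟩
    have := hR _ h
    push_cast at this
    omega
  let m : ℤ → ℕ := fun k => Nat.find (hm k)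
  let st : ℤ → ℤ := fun k => k - 3 * (m k : ℤ)
  let len : ℤ → ℕ := fun k => Nat.find (hn k)
  let wd : ℤ → List Letter := fun k => (List.range (len k)).map fun j : ℕ => W₀ (k + 3 * (j : ℤ))
  have hlen : ∀ k, (wd k).length = len k := fun k => by simp [wd]
  have hlenS : ∀ k, len k ≤ S.card := by
    intro k
    have h1 : ((Finset.range (len k)).image fun j : ℕ => k + 3 * (j : ℤ)) ⊆ S := by
      intro x hx
      rw [Finset.mem_image] at hx
      obtain ⟨j, hj, rfl⟩ := hx
      have := Nat.find_min (hn k) (Finset.mem_range.1 hj)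
      simpa using this
    have h2 := Finset.card_le_card h1
    rwa [Finset.card_image_of_injective _ (fun a b hab => by
      have hab' : k + 3 * (a : ℤ) = k + 3 * (b : ℤ) := hab
      omega), Finset.card_range] at h2
  have hex : ∀ k, ∃ (ws : ℕ → List Letter) (ts : ℕ → List Trans), ws 0 = wd k ∧
      (∀ l < T, (∃ s, PathFrom s (ts l)) ∧ (ts l).map Trans.bot = ws l ∧
        (ts l).map Trans.top = ws (l + 1)) ∧ ∀ x ∈ ws T, isCompE x = false := by
    intro k
    apply sel_list hW
    apply sel_wok
    rw [hlen]
    have := hlenS k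
    omega
  choose ws ts h0 h1 h2 using hex
  have hwl : ∀ k l, l ≤ T → (ws k l).length = len k := by
    intro k l
    induction l with
    | zero => intro _; rw [h0, hlen]
    | succ l ih =>
      intro hl
      rw [← (h1 k l (by omega)).2.2, List.length_map]
      have := ih (by omega)
      rw [← (h1 k l (by omega)).2.1, List.length_map] at this
      exact this
  have htl : ∀ k l, l < T → (ts k l).length = len k := by
    intro k l hl
    have := hwl k l hl.le
    rw [← (h1 k l hl).2.1, List.length_map] at this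
    exact this
  -- the members of `S` below `k`
  have hmem : ∀ k ∈ S, ∀ j : ℕ, j ≤ m k → k - 3 * (j : ℤ) ∈ S := by
    intro k hk j hj
    cases j with
    | zero => simpa using hk
    | succ j =>
      have := Nat.find_min (hm k) (m := j) (by
        have : m k = Nat.find (hm k) := rfl
        omega)
      push_cast
      simpa using this
  have hidx : ∀ k ∈ S, m k < len (st k) := by
    intro k hk
    by_contra hcon
    push Not at hcon
    have h3 := Nat.find_spec (hn (st k))
    apply h3
    have h4 : st k + 3 * ((Nat.find (hn (st k)) : ℕ) : ℤ) =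
        k - 3 * ((m k - len (st k) : ℕ) : ℤ) := by
      have h5 : ((m k - len (st k) : ℕ) : ℤ) = (m k : ℤ) - (len (st k) : ℤ) := by
        push_cast [Nat.cast_sub hcon]; ring
      rw [h5]
      simp only [st, len]
      ring
    rw [h4]
    exact hmem k hk _ (by omega)
  refine ⟨fun k l => (ws (st k) l).getD (m k) .dead, fun k l => (ts (st k) l).getD (m k) selT0,
    ?_, ?_⟩
  · intro k hk
    have hi := hidx k hk
    refine ⟨?_, ?_, ?_⟩
    · simp only
      rw [h0, List.getD_eq_getElem _ _ (by rw [hlen]; exact hi)]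
      simp only [wd, List.getElem_map, List.getElem_range, st]
      congr 1
      ring
    · intro l hl
      have h3 : m k < (ts (st k) l).length := by rw [htl _ _ hl]; exact hi
      constructor
      · simp only
        rw [List.getD_eq_getElem _ _ h3,
          List.getD_eq_getElem _ _ (by rw [hwl _ _ hl.le]; exact hi)]
        simp only [← (h1 (st k) l hl).2.1, List.getElem_map]
      · simp only
        rw [List.getD_eq_getElem _ _ h3,
          List.getD_eq_getElem _ _ (by rw [hwl _ _ hl]; exact hi)]
        simp only [← (h1 (st k) l hl).2.2, List.getElem_map]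
    · simp only
      rw [List.getD_eq_getElem _ _ (by rw [hwl _ _ le_rfl]; exact hi)]
      exact h2 _ _ (List.getElem_mem _)
  · intro k hk hk3 l hl
    have hm3 : m (k + 3) = m k + 1 := by
      have hP : ∃ j : ℕ, k - 3 * (j : ℤ) ∉ S := by
        obtain ⟨j, hj⟩ := hm k
        exact ⟨j + 1, by push_cast; exact hj⟩
      have e1 : m (k + 3) = Nat.find hP := by
        simp only [m]
        congr 1
        funext j
        have : k + 3 - 3 * ((j : ℤ) + 1) = k - 3 * (j : ℤ) := by ring
        rw [this]
      have hQ : ∃ j : ℕ, k - 3 * ((j + 1 : ℕ) : ℤ) ∉ S := by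
        obtain ⟨j, hj⟩ := hm k
        exact ⟨j, by push_cast; exact hj⟩
      have e2 : m k = Nat.find hQ := by
        simp only [m]
      rw [e1, e2]
      exact Nat.find_comp_succ hP hQ (by simpa using hk)
    have hst : st (k + 3) = st k := by
      simp only [st, hm3]
      push_cast
      ring
    simp only
    rw [hst, hm3]
    obtain ⟨s, hs⟩ := (h1 (st k) l hl).1
    apply sel_path _ s hs
    rw [htl _ _ hl]
    have := hidx (k + 3) hk3
    rw [hst, hm3] at this
    exact this

end Pool.Agent.H26.Hom
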